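import Pool.Agent.X3.IC.Step

/-!
# Rational completions of integral orthogonal frames in dimension eight
-/

set_option autoImplicit false

open Matrix

namespace Pool.Agent.X3.IC

/-- reflection in the hyperplane orthogonal to `u` -/
def refl {n : ℕ} (u x : Fin n → ℚ) : Fin n → ℚ := x - (2 * (x ⬝ᵥ u) / (u ⬝ᵥ u)) • u

lemma refl_dot {n : ℕ} {u : Fin n → ℚ} (hu : u ⬝ᵥ u ≠ 0) (x y : Fin n → ℚ) :
    refl u x ⬝ᵥ refl u y = x ⬝ᵥ y := by
  unfold refl
  rw [sub_dotProduct, dotProduct_sub, dotProduct_sub, smul_dotProduct, smul_dotProduct,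
    dotProduct_smul, dotProduct_smul, dotProduct_comm u y]
  simp only [smul_eq_mul]
  field_simp
  ring

lemma dot_self_pos {n : ℕ} {u : Fin n → ℚ} (hu : u ≠ 0) : 0 < u ⬝ᵥ u := by
  have hnn : 0 ≤ u ⬝ᵥ u := Finset.sum_nonneg fun i _ => mul_self_nonneg _
  refine lt_of_le_of_ne hnn (Ne.symm ?_)
  intro h0
  apply hu
  funext j
  have h3 := (Finset.sum_eq_zero_iff_of_nonneg (fun i _ => mul_self_nonneg (u i))).1 h0 j
    (Finset.mem_univ j)
  exact mul_self_eq_zero.1 h3

/-- the rational frame given by two quaternion blocks -/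
lemma base_frame (lam : ℤ) (hlam : 0 < lam) : ∃ F : Fin 8 → Fin 8 → ℚ,
    ∀ i j, F i ⬝ᵥ F j = if i = j then (lam : ℚ) else 0 := by
  obtain ⟨a, b, c, d, h⟩ := Nat.sum_four_squares lam.toNat
  have hq : (a : ℚ) ^ 2 + b ^ 2 + c ^ 2 + d ^ 2 = lam := by
    have h1 : ((a ^ 2 + b ^ 2 + c ^ 2 + d ^ 2 : ℕ) : ℤ) = lam := by
      rw [h, Int.toNat_of_nonneg hlam.le]
    exact_mod_cast congrArg (Int.cast : ℤ → ℚ) h1
  refine ⟨![![a, b, c, d, 0, 0, 0, 0], ![-b, a, d, -c, 0, 0, 0, 0], ![-c, -d, a, b, 0, 0, 0, 0],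
    ![-d, c, -b, a, 0, 0, 0, 0], ![0, 0, 0, 0, a, b, c, d], ![0, 0, 0, 0, -b, a, d, -c],
    ![0, 0, 0, 0, -c, -d, a, b], ![0, 0, 0, 0, -d, c, -b, a]], ?_⟩
  intro i j
  rw [← hq]
  fin_cases i <;> fin_cases j <;>
    simp [dotProduct, Fin.sum_univ_succ] <;> ring

/-- a rational frame with prescribed first vectors -/
lemma exists_frame {lam : ℤ} (hlam : 0 < lam) (v : Fin 8 → Fin 8 → ℚ) (k : ℕ)
    (hv : ∀ i j : Fin 8, (i : ℕ) < k → (j : ℕ) < k → v i ⬝ᵥ v j = if i = j then (lam : ℚ) else 0)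
    (hk : k ≤ 8) :
    ∃ F : Fin 8 → Fin 8 → ℚ, (∀ i j, F i ⬝ᵥ F j = if i = j then (lam : ℚ) else 0) ∧
      ∀ i : Fin 8, (i : ℕ) < k → F i = v i := by
  induction k with
  | zero =>
    obtain ⟨F, hF⟩ := base_frame lam hlam
    exact ⟨F, hF, fun i hi => absurd hi (by omega)⟩
  | succ j ih =>
    obtain ⟨F, hF, hFv⟩ := ih (fun i l hi hl => hv i l (by omega) (by omega)) (by omega)
    let jj : Fin 8 := ⟨j, by omega⟩
    by_cases hu : F jj - v jj = 0
    · refine ⟨F, hF, fun i hi => ?_⟩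
      rcases Nat.lt_or_ge i j with h1 | h1
      · exact hFv i h1
      · have : i = jj := Fin.ext (by simp [jj]; omega)
        rw [this]
        exact sub_eq_zero.1 hu
    · set u := F jj - v jj with hudef
      have hpos := dot_self_pos hu
      have hvjj := hv jj jj (by simp [jj]) (by simp [jj])
      rw [if_pos rfl] at hvjj
      have hFjj := hF jj jj
      rw [if_pos rfl] at hFjj
      have huu : u ⬝ᵥ u = 2 * lam - 2 * (F jj ⬝ᵥ v jj) := by
        rw [hudef, sub_dotProduct, dotProduct_sub, dotProduct_sub, hvjj, hFjj,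
          dotProduct_comm (v jj) (F jj)]
        ring
      have hFu : F jj ⬝ᵥ u = lam - F jj ⬝ᵥ v jj := by
        rw [hudef, dotProduct_sub, hFjj]
      refine ⟨fun i => refl u (F i), ?_, ?_⟩
      · intro i l
        rw [refl_dot hpos.ne']
        exact hF i l
      · intro i hi
        rcases Nat.lt_or_ge i j with h1 | h1
        · have hne : i ≠ jj := by
            intro h
            rw [h] at h1
            simp [jj] at h1
          have e1 : F i ⬝ᵥ u = 0 := by
            rw [hudef, dotProduct_sub, hF, if_neg hne, hFv i h1, hv i jj hi (by simp [jj]),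
              if_neg hne, sub_zero]
          show refl u (F i) = v i
          unfold refl
          rw [e1, mul_zero, zero_div, zero_smul, sub_zero]
          exact hFv i h1
        · have hij : i = jj := Fin.ext (by simp [jj]; omega)
          rw [hij]
          show refl u (F jj) = v jj
          unfold refl
          have e2 : 2 * (F jj ⬝ᵥ u) / (u ⬝ᵥ u) = 1 := by
            rw [div_eq_one_iff_eq hpos.ne', huu, hFu]
            ring
          rw [e2, one_smul, hudef]
          abel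

/-- An icube: pairwise orthogonal integral vectors with the same squared length `lam > 0`. -/
def IsIcube {n k : ℕ} (lam : ℤ) (v : Fin k → Fin n → ℤ) : Prop :=
  0 < lam ∧ ∀ i j, ∑ l, v i l * v j l = if i = j then lam else 0

lemma qv_dot {n : ℕ} (a b : Fin n → ℤ) : qv a ⬝ᵥ qv b = ((∑ l, a l * b l : ℤ) : ℚ) := by
  simp [dotProduct, qv]

/-- extension by one vector, `2 ≤ k ≤ 7` -/
lemma extend_one {k : ℕ} (hk2 : 2 ≤ k) (hk7 : k ≤ 7) {lam : ℤ} {V : Fin k → Fin 8 → ℤ}
    (hV : IsIcube lam V) : ∃ x : Fin 8 → ℤ, ∑ l, x l * x l = lam ∧ ∀ i, ∑ l, V i l * x l = 0 := by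
  obtain ⟨hlam, hV⟩ := hV
  obtain ⟨m, hm⟩ : ∃ m, k + (m + 1) = 8 := ⟨7 - k, by omega⟩
  let v : Fin 8 → Fin 8 → ℚ := fun i => if h : (i : ℕ) < k then qv (V ⟨i, h⟩) else 0
  have hv : ∀ i j : Fin 8, (i : ℕ) < k → (j : ℕ) < k →
      v i ⬝ᵥ v j = if i = j then (lam : ℚ) else 0 := by
    intro i j hi hj
    simp only [v, hi, hj, dif_pos]
    rw [qv_dot, hV]
    by_cases hij : i = j
    · subst hij; simp
    · have : (⟨i, hi⟩ : Fin k) ≠ ⟨j, hj⟩ := by
        intro h
        have h' := congrArg Fin.val h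
        exact hij (Fin.ext h')
      rw [if_neg hij, if_neg this]
      norm_num
  obtain ⟨F, hF, hFv⟩ := exists_frame hlam v k hv (by omega)
  have hlamQ : (lam : ℚ) ≠ 0 := by exact_mod_cast hlam.ne'
  -- the transposed relation
  have hT : ∀ l l' : Fin 8, ∑ i, F i l * F i l' = if l = l' then (lam : ℚ) else 0 := by
    let A : Matrix (Fin 8) (Fin 8) ℚ := Matrix.of F
    have h1 : A * ((lam : ℚ)⁻¹ • Aᵀ) = 1 := by
      ext i j
      rw [Matrix.mul_smul, Matrix.smul_apply, Matrix.mul_apply]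
      have := hF i j
      rw [dotProduct] at this
      simp only [A, Matrix.transpose_apply, Matrix.of_apply]
      rw [this, Matrix.one_apply, smul_eq_mul]
      split_ifs
      · exact inv_mul_cancel₀ hlamQ
      · rw [mul_zero]
    have h2 := mul_eq_one_comm.1 h1
    intro l l'
    have h3 := congrFun (congrFun h2 l) l'
    rw [Matrix.smul_mul, Matrix.smul_apply, Matrix.mul_apply, smul_eq_mul, Matrix.one_apply] at h3
    simp only [A, Matrix.transpose_apply, Matrix.of_apply] at h3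
    have h4 : ∑ i, F i l * F i l' = lam * ((lam : ℚ)⁻¹ * ∑ i, F i l * F i l') := by
      rw [← mul_assoc, mul_inv_cancel₀ hlamQ, one_mul]
    rw [h4, h3]
    split_ifs <;> simp
  have hfull : ∀ (a : Fin 8 → ℤ) (l : Fin 8), ∑ i, (F i ⬝ᵥ qv a) * F i l = lam * a l := by
    intro a l
    have e1 : ∑ i, (F i ⬝ᵥ qv a) * F i l = ∑ l', (a l' : ℚ) * ∑ i, F i l' * F i l := by
      simp only [dotProduct, qv, Finset.mul_sum, Finset.sum_mul]
      rw [Finset.sum_comm]
      refine Finset.sum_congr rfl fun l' _ => Finset.sum_congr rfl fun i _ => by ring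
    rw [e1]
    simp only [hT]
    rw [Finset.sum_eq_single l]
    · rw [if_pos rfl]; ring
    · intro b _ hb
      rw [if_neg hb, mul_zero]
    · simp
  let W : Fin (m + 1) → Fin 8 → ℚ := fun j => F (Fin.cast hm (Fin.natAdd k j))
  have hVF : ∀ i : Fin k, F (Fin.cast hm (Fin.castAdd (m + 1) i)) = qv (V i) := by
    intro i
    rw [hFv _ (by simp)]
    simp [v]
  obtain ⟨x, hx1, hx2⟩ := step (ι := Fin 8) (m := m) (k := k) (by omega) lam V W
    (by
      intro i j
      simp only [W]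
      rw [hF]
      congr 1
      simp [Fin.ext_iff])
    (by
      intro i j
      rw [← hVF]
      simp only [W]
      rw [hF, if_neg]
      intro h
      have := congrArg Fin.val h
      simp at this
      omega)
    (by
      intro a l
      have h1 := hfull a l
      rw [← Fin.sum_congr' (fun i => (F i ⬝ᵥ qv a) * F i l) hm, Fin.sum_univ_add] at h1
      have h2 : ∑ i : Fin k, (F (Fin.cast hm (Fin.castAdd (m + 1) i)) ⬝ᵥ qv a) *
          F (Fin.cast hm (Fin.castAdd (m + 1) i)) l =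
          ∑ i, ((V i ⬝ᵥ a : ℤ) : ℚ) * V i l := by
        refine Finset.sum_congr rfl fun i _ => ?_
        rw [hVF, qv_dot]
        rfl
      rw [h2] at h1
      rw [← h1]
      ring)
  exact ⟨x, hx1, hx2⟩

/-- extension by one vector -/
lemma extend_one' {k : ℕ} (hk1 : 1 ≤ k) (hk7 : k ≤ 7) {lam : ℤ} {V : Fin k → Fin 8 → ℤ}
    (hV : IsIcube lam V) : ∃ x : Fin 8 → ℤ, ∑ l, x l * x l = lam ∧ ∀ i, ∑ l, V i l * x l = 0 := by
  rcases Nat.lt_or_ge k 2 with h | h
  · have hk : k = 1 := by omega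
    subst hk
    have h0 := hV.2 0 0
    rw [if_pos rfl] at h0
    refine ⟨![-V 0 1, V 0 0, -V 0 3, V 0 2, -V 0 5, V 0 4, -V 0 7, V 0 6], ?_, ?_⟩
    · rw [← h0]
      simp only [Fin.sum_univ_eight]
      simp
      ring
    · intro i
      have : i = 0 := Subsingleton.elim _ _
      subst this
      simp only [Fin.sum_univ_eight]
      simp
      ring
  · exact extend_one h hk7 hV

lemma snoc_icube {k : ℕ} {lam : ℤ} {V : Fin k → Fin 8 → ℤ} (hV : IsIcube lam V) {x : Fin 8 → ℤ}
    (hx : ∑ l, x l * x l = lam) (hVx : ∀ i, ∑ l, V i l * x l = 0) :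
    IsIcube lam (Fin.snoc (α := fun _ => Fin 8 → ℤ) V x) := by
  refine ⟨hV.1, ?_⟩
  intro i j
  refine Fin.lastCases ?_ (fun i => ?_) i <;> refine Fin.lastCases ?_ (fun j => ?_) j
  · simp [hx]
  · simp only [Fin.snoc_last, Fin.snoc_castSucc]
    rw [if_neg (Ne.symm (Fin.castSucc_lt_last j).ne)]
    rw [← hVx j]
    refine Finset.sum_congr rfl fun l _ => by ring
  · simp only [Fin.snoc_last, Fin.snoc_castSucc]
    rw [if_neg (Fin.castSucc_lt_last i).ne]
    exact hVx i
  · simp only [Fin.snoc_castSucc]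
    rw [hV.2]
    simp

theorem extend_full (d : ℕ) : ∀ (k : ℕ) (_ : 1 ≤ k) (hk : k ≤ 8) (_ : d = 8 - k) (lam : ℤ)
    (V : Fin k → Fin 8 → ℤ), IsIcube lam V →
    ∃ w : Fin 8 → Fin 8 → ℤ, IsIcube lam w ∧ ∀ i : Fin k, w (Fin.castLE hk i) = V i := by
  induction d with
  | zero =>
    intro k hk1 hk hd lam V hV
    have : k = 8 := by omega
    subst this
    exact ⟨V, hV, fun i => rfl⟩
  | succ d ih =>
    intro k hk1 hk hd lam V hV
    obtain ⟨x, hx, hVx⟩ := extend_one' hk1 (by omega) hV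
    obtain ⟨w, hw, hwV⟩ := ih (k + 1) (by omega) (by omega) (by omega) lam _ (snoc_icube hV hx hVx)
    refine ⟨w, hw, fun i => ?_⟩
    have := hwV (Fin.castSucc i)
    rw [Fin.snoc_castSucc] at this
    rw [← this]
    rfl

end Pool.Agent.X3.IC
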