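import Mathlib

/-!
# Hermite's inequality for positive definite integral quadratic forms, and norm one vectors of
positive definite unimodular forms of rank at most six
-/

set_option autoImplicit false

open Matrix

namespace Pool.Agent.X3.IC

/-- value of the form with Gram matrix `G` -/
def q {n : ℕ} (G : Matrix (Fin n) (Fin n) ℤ) (x : Fin n → ℤ) : ℤ := x ⬝ᵥ (G *ᵥ x)

/-- positive definite symmetric integral matrices -/
structure PD {n : ℕ} (G : Matrix (Fin n) (Fin n) ℤ) : Prop where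
  symm : Gᵀ = G
  pos : ∀ x : Fin n → ℤ, x ≠ 0 → 0 < q G x

/-- the (scaled) Schur complement -/
def schur {n : ℕ} (G : Matrix (Fin (n + 1)) (Fin (n + 1)) ℤ) : Matrix (Fin n) (Fin n) ℤ :=
  Matrix.of fun i j => G 0 0 * G i.succ j.succ - G 0 i.succ * G 0 j.succ

lemma PD.apply {n : ℕ} {G : Matrix (Fin n) (Fin n) ℤ} (h : PD G) (i j : Fin n) :
    G i j = G j i := by
  have := congrFun (congrFun h.symm j) i
  simpa using this

lemma q_trans {n : ℕ} (G U : Matrix (Fin n) (Fin n) ℤ) (x : Fin n → ℤ) :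
    q (Uᵀ * G * U) x = q G (U *ᵥ x) := by
  unfold q
  rw [← Matrix.mulVec_mulVec, ← Matrix.mulVec_mulVec, Matrix.dotProduct_mulVec,
    Matrix.vecMul_transpose]

lemma q_smul {n : ℕ} (G : Matrix (Fin n) (Fin n) ℤ) (c : ℤ) (x : Fin n → ℤ) :
    q G (c • x) = c ^ 2 * q G x := by
  unfold q
  rw [Matrix.mulVec_smul, smul_dotProduct, dotProduct_smul, smul_eq_mul, smul_eq_mul]
  ring

lemma q_sum {n : ℕ} (G : Matrix (Fin n) (Fin n) ℤ) (x : Fin n → ℤ) :
    q G x = ∑ i, ∑ j, x i * G i j * x j := by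
  unfold q
  simp only [dotProduct, mulVec, Finset.mul_sum]
  refine Finset.sum_congr rfl fun i _ => Finset.sum_congr rfl fun j _ => by ring

lemma q_cons {n : ℕ} {G : Matrix (Fin (n + 1)) (Fin (n + 1)) ℤ} (h : PD G) (t : ℤ)
    (z : Fin n → ℤ) :
    G 0 0 * q G (Fin.cons t z) =
      (G 0 0 * t + ∑ i, G 0 i.succ * z i) ^ 2 + q (schur G) z := by
  have h1 : q G (Fin.cons t z) = t ^ 2 * G 0 0 + 2 * t * (∑ i, G 0 i.succ * z i) +
      ∑ i, ∑ j, z i * G i.succ j.succ * z j := by
    rw [q_sum, Fin.sum_univ_succ]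
    simp only [Fin.sum_univ_succ (n := n), Fin.cons_zero, Fin.cons_succ]
    rw [Finset.sum_add_distrib]
    have e1 : ∑ j : Fin n, t * G 0 j.succ * z j = t * ∑ i, G 0 i.succ * z i := by
      rw [Finset.mul_sum]; refine Finset.sum_congr rfl fun i _ => by ring
    have e2 : ∑ i : Fin n, z i * G i.succ 0 * t = t * ∑ i, G 0 i.succ * z i := by
      rw [Finset.mul_sum]; refine Finset.sum_congr rfl fun i _ => by rw [h.apply i.succ 0]; ring
    rw [e1, e2]
    ring
  have h2 : q (schur G) z = G 0 0 * (∑ i, ∑ j, z i * G i.succ j.succ * z j) -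
      (∑ i, G 0 i.succ * z i) ^ 2 := by
    rw [q_sum, pow_two, Finset.sum_mul_sum, Finset.mul_sum, ← Finset.sum_sub_distrib]
    refine Finset.sum_congr rfl fun i _ => ?_
    rw [Finset.mul_sum, ← Finset.sum_sub_distrib]
    refine Finset.sum_congr rfl fun j _ => ?_
    simp only [schur, Matrix.of_apply]
    ring
  rw [h1, h2]
  ring

lemma det_schur {n : ℕ} {G : Matrix (Fin (n + 1)) (Fin (n + 1)) ℤ} (h : PD G) :
    G 0 0 * (schur G).det = G 0 0 ^ n * G.det := by
  set v : Fin (n + 1) → ℤ := Fin.cons 1 (fun _ => G 0 0) with hv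
  set K : Matrix (Fin (n + 1)) (Fin (n + 1)) ℤ := Matrix.of fun i j => v i * G i j with hK
  set B : Matrix (Fin (n + 1)) (Fin (n + 1)) ℤ :=
    Matrix.of fun i j => v i * G i j - (Fin.cons 0 (fun i : Fin n => G 0 i.succ) :
      Fin (n + 1) → ℤ) i * G 0 j with hB
  have h1 : K.det = G 0 0 ^ n * G.det := by
    rw [hK, Matrix.det_mul_column]
    congr 1
    rw [Fin.prod_univ_succ, hv]
    simp
  have h2 : K.det = B.det := by
    refine Matrix.det_eq_of_forall_row_eq_smul_add_const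
      (Fin.cons 0 (fun i : Fin n => G 0 i.succ)) 0 (by simp) ?_
    intro i j
    have hB0 : B 0 j = G 0 j := by simp [hB, hv]
    rw [hB0]
    simp [hB, hK]
  have h3 : B.det = G 0 0 * (schur G).det := by
    rw [Matrix.det_succ_column_zero, Fin.sum_univ_succ]
    have hz : ∀ i : Fin n, B i.succ 0 = 0 := by
      intro i
      simp only [hB, hv, Matrix.of_apply, Fin.cons_succ]
      rw [h.apply i.succ 0]
      ring
    have hsum : ∑ i : Fin n, (-1 : ℤ) ^ ((i.succ : Fin (n + 1)) : ℕ) * B i.succ 0 *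
        (B.submatrix (i.succ).succAbove Fin.succ).det = 0 := by
      refine Finset.sum_eq_zero fun i _ => ?_
      rw [hz i]; ring
    rw [hsum]
    have h00 : B 0 0 = G 0 0 := by simp [hB, hv]
    have hsub : B.submatrix (Fin.succAbove 0) Fin.succ = schur G := by
      ext i j
      simp [hB, hv, schur]
    rw [h00, hsub]
    simp
  rw [← h3, ← h2, h1]

lemma exists_round (h a : ℤ) (ha : 0 < a) : ∃ j : ℤ, 4 * (h + a * j) ^ 2 ≤ a ^ 2 := by
  refine ⟨-((2 * h + a) / (2 * a)), ?_⟩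
  have h1 := Int.emod_add_mul_ediv (2 * h + a) (2 * a)
  have h2 := Int.emod_nonneg (2 * h + a) (by omega : (2 * a) ≠ 0)
  have h3 := Int.emod_lt_of_pos (2 * h + a) (by omega : 0 < 2 * a)
  set r := (2 * h + a) % (2 * a)
  set k := (2 * h + a) / (2 * a)
  have h4 : 2 * (h + a * -k) = r - a := by linarith
  have h5 : 4 * (h + a * -k) ^ 2 = (r - a) ^ 2 := by rw [← h4]; ring
  rw [h5]
  have h6 : -a ≤ r - a := by linarith
  have h7 : r - a ≤ a := by linarith
  nlinarith

lemma PD.zero_pos {n : ℕ} {G : Matrix (Fin (n + 1)) (Fin (n + 1)) ℤ} (h : PD G) : 0 < G 0 0 := by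
  have h1 := h.pos (Pi.single 0 1) (by
    intro h0
    have := congrFun h0 0
    simp at this)
  unfold q at h1
  simpa using h1

/-- values of the Schur complement of a form with minimal first entry -/
lemma schur_lower {n : ℕ} {G : Matrix (Fin (n + 1)) (Fin (n + 1)) ℤ} (h : PD G)
    (hmin : ∀ x, x ≠ 0 → G 0 0 ≤ q G x) (z : Fin n → ℤ) (hz : z ≠ 0) :
    3 * G 0 0 ^ 2 ≤ 4 * q (schur G) z := by
  have h0 := h.zero_pos
  obtain ⟨j, hj⟩ := exists_round (∑ i, G 0 i.succ * z i) (G 0 0) h0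
  have hne : (Fin.cons j z : Fin (n + 1) → ℤ) ≠ 0 := by
    intro h1
    apply hz
    funext i
    have := congrFun h1 i.succ
    simpa using this
  have h2 := q_cons h j z
  have h3 := hmin _ hne
  have h4 : (G 0 0) * (G 0 0) ≤ G 0 0 * q G (Fin.cons j z) := mul_le_mul_of_nonneg_left h3 h0.le
  have h5 : G 0 0 * j + ∑ i, G 0 i.succ * z i = (∑ i, G 0 i.succ * z i) + G 0 0 * j := by ring
  rw [h5] at h2
  nlinarith

lemma schur_PD {n : ℕ} {G : Matrix (Fin (n + 1)) (Fin (n + 1)) ℤ} (h : PD G)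
    (hmin : ∀ x, x ≠ 0 → G 0 0 ≤ q G x) : PD (schur G) where
  symm := by
    ext i j
    simp only [Matrix.transpose_apply, schur, Matrix.of_apply]
    rw [h.apply j.succ i.succ]
    ring
  pos := by
    intro z hz
    have h1 := schur_lower h hmin z hz
    have h0 := h.zero_pos
    nlinarith

/-- a primitive vector with the minimal value -/
lemma exists_min {n : ℕ} {G : Matrix (Fin (n + 1)) (Fin (n + 1)) ℤ} (h : PD G) :
    ∃ x : Fin (n + 1) → ℤ, x ≠ 0 ∧ ∀ y, y ≠ 0 → q G x ≤ q G y := by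
  classical
  have hex : ∃ a : ℕ, ∃ x : Fin (n + 1) → ℤ, x ≠ 0 ∧ q G x = a := by
    refine ⟨(q G (Pi.single 0 1)).toNat, Pi.single 0 1, ?_, ?_⟩
    · intro h0
      have := congrFun h0 0
      simp at this
    · rw [Int.toNat_of_nonneg]
      refine (h.pos _ ?_).le
      intro h0
      have := congrFun h0 0
      simp at this
  obtain ⟨x, hx0, hx⟩ := Nat.find_spec hex
  refine ⟨x, hx0, ?_⟩
  intro y hy
  have h1 := Nat.find_min' hex ⟨y, hy, (Int.toNat_of_nonneg (h.pos y hy).le).symm⟩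
  rw [hx]
  have h2 := h.pos y hy
  omega

/-- a vector on which some integral linear functional takes the value one is the first column of
a unimodular matrix -/
lemma exists_unimodular {n : ℕ} (x w : Fin (n + 1) → ℤ) (hxw : w ⬝ᵥ x = 1) :
    ∃ U : Matrix (Fin (n + 1)) (Fin (n + 1)) ℤ, IsUnit U.det ∧ U *ᵥ (Pi.single 0 1) = x := by
  classical
  let L : (Fin (n + 1) → ℤ) →ₗ[ℤ] ℤ :=
    { toFun := fun y => w ⬝ᵥ y
      map_add' := fun a b => dotProduct_add _ _ _
      map_smul' := fun c a => dotProduct_smul _ _ _ }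
  have hLx : L x = 1 := hxw
  obtain ⟨r, b⟩ := Submodule.basisOfPid (Pi.basisFun ℤ (Fin (n + 1))) (LinearMap.ker L)
  have hli : ∀ (c : ℤ), ∀ y ∈ LinearMap.ker L, c • x + y = 0 → c = 0 := by
    intro c y hy hc
    have := congrArg L hc
    rw [map_add, map_smul, hLx, LinearMap.mem_ker.1 hy] at this
    simpa using this
  have hsp : ∀ z : Fin (n + 1) → ℤ, ∃ c : ℤ, z + c • x ∈ LinearMap.ker L := by
    intro z
    refine ⟨-(L z), ?_⟩
    rw [LinearMap.mem_ker, map_add, map_smul, hLx]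
    simp
  let B := Module.Basis.mkFinCons x b hli hsp
  have hr : r = n := by
    have h1 := Module.finrank_eq_card_basis B
    have h2 := Module.finrank_eq_card_basis (Pi.basisFun ℤ (Fin (n + 1)))
    rw [h1, Fintype.card_fin, Fintype.card_fin] at h2
    omega
  subst hr
  have hB0 : B 0 = x := by
    exact congrFun (Module.Basis.coe_mkFinCons x b hli hsp) 0
  refine ⟨(Pi.basisFun ℤ (Fin (r + 1))).toMatrix B, ?_, ?_⟩
  · rw [← Module.Basis.det_apply]
    exact (Pi.basisFun ℤ (Fin (r + 1))).isUnit_det B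
  · rw [Matrix.mulVec_single_one]
    funext i
    simp [Module.Basis.toMatrix_apply, hB0]

lemma min_primitive {n : ℕ} {G : Matrix (Fin (n + 1)) (Fin (n + 1)) ℤ} (h : PD G)
    {x : Fin (n + 1) → ℤ} (hx : x ≠ 0) (hmin : ∀ y, y ≠ 0 → q G x ≤ q G y) :
    ∃ w : Fin (n + 1) → ℤ, w ⬝ᵥ x = 1 := by
  classical
  obtain ⟨d, hd⟩ := (IsPrincipalIdealRing.principal (Ideal.span (Set.range x))).principal
  have hdmem : d ∈ Ideal.span (Set.range x) := by
    rw [hd]; exact Submodule.mem_span_singleton_self d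
  obtain ⟨w, hw⟩ := Ideal.mem_span_range_iff_exists_fun.1 hdmem
  have hdiv : ∀ i, d ∣ x i := by
    intro i
    have : x i ∈ Ideal.span (Set.range x) := Ideal.subset_span ⟨i, rfl⟩
    rw [hd] at this
    exact Ideal.mem_span_singleton.1 this
  choose y hy using hdiv
  have hxy : x = d • y := by
    funext i
    rw [Pi.smul_apply, smul_eq_mul]; exact hy i
  have hy0 : y ≠ 0 := by
    rintro rfl
    exact hx (by rw [hxy, smul_zero])
  have hqy := h.pos y hy0
  have h1 := hmin y hy0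
  rw [hxy, q_smul] at h1
  have hd0 : d ≠ 0 := by
    rintro rfl
    exact hx (by rw [hxy, zero_smul])
  have hd2 : d ^ 2 ≤ 1 := by
    by_contra hcon
    push Not at hcon
    nlinarith
  have hd1 : d = 1 ∨ d = -1 := by
    have h3 : -1 ≤ d := by nlinarith
    have h4 : d ≤ 1 := by nlinarith
    omega
  rcases hd1 with h5 | h5
  · refine ⟨w, ?_⟩
    rw [← h5, ← hw]
    rfl
  · refine ⟨-w, ?_⟩
    have : w ⬝ᵥ x = d := hw
    rw [neg_dotProduct, this, h5]
    norm_num

lemma det_trans {n : ℕ} {G U : Matrix (Fin n) (Fin n) ℤ} (hU : IsUnit U.det) :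
    (Uᵀ * G * U).det = G.det := by
  rw [Matrix.det_mul, Matrix.det_mul, Matrix.det_transpose]
  rcases Int.isUnit_iff.1 hU with h | h <;> rw [h] <;> ring

lemma mulVec_ne_zero {n : ℕ} {U : Matrix (Fin n) (Fin n) ℤ} (hU : IsUnit U.det)
    {x : Fin n → ℤ} (hx : x ≠ 0) : U *ᵥ x ≠ 0 := by
  intro h
  apply hx
  have h1 : U⁻¹ *ᵥ (U *ᵥ x) = 0 := by rw [h, Matrix.mulVec_zero]
  rwa [Matrix.mulVec_mulVec, Matrix.nonsing_inv_mul _ hU, Matrix.one_mulVec] at h1

lemma PD.trans {n : ℕ} {G U : Matrix (Fin n) (Fin n) ℤ} (h : PD G) (hU : IsUnit U.det) :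
    PD (Uᵀ * G * U) where
  symm := by
    rw [Matrix.transpose_mul, Matrix.transpose_mul, Matrix.transpose_transpose, h.symm,
      Matrix.mul_assoc]
  pos := by
    intro x hx
    rw [q_trans]
    exact h.pos _ (mulVec_ne_zero hU hx)

/-- every positive definite form has a basis whose first vector is minimal -/
lemma exists_reduced {n : ℕ} {G : Matrix (Fin (n + 1)) (Fin (n + 1)) ℤ} (h : PD G) :
    ∃ U : Matrix (Fin (n + 1)) (Fin (n + 1)) ℤ, IsUnit U.det ∧
      ∀ x, x ≠ 0 → (Uᵀ * G * U) 0 0 ≤ q (Uᵀ * G * U) x := by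
  obtain ⟨x, hx, hmin⟩ := exists_min h
  obtain ⟨w, hw⟩ := min_primitive h hx hmin
  obtain ⟨U, hU, hUx⟩ := exists_unimodular x w hw
  refine ⟨U, hU, ?_⟩
  have h00 : (Uᵀ * G * U) 0 0 = q G x := by
    have : (Uᵀ * G * U) 0 0 = q (Uᵀ * G * U) (Pi.single 0 1) := by
      unfold q
      simp
    rw [this, q_trans, hUx]
  intro y hy
  rw [h00, q_trans]
  exact hmin _ (mulVec_ne_zero hU hy)

/-- **Hermite's inequality** -/
theorem hermite (n : ℕ) : ∀ G : Matrix (Fin (n + 1)) (Fin (n + 1)) ℤ, PD G →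
    ∃ x : Fin (n + 1) → ℤ, x ≠ 0 ∧
      3 ^ ((n + 1) * n / 2) * (q G x) ^ (n + 1) ≤ 4 ^ ((n + 1) * n / 2) * G.det := by
  induction n with
  | zero =>
    intro G h
    refine ⟨fun _ => 1, ?_, ?_⟩
    · intro h0
      have := congrFun h0 0
      simp at this
    · rw [q_sum]
      simp
  | succ n ih =>
    intro G h
    obtain ⟨U, hU, hmin⟩ := exists_reduced h
    set G' := Uᵀ * G * U with hG'
    have hPD : PD G' := h.trans hU
    have hdet : G'.det = G.det := det_trans hU
    obtain ⟨z, hz, hzle⟩ := ih (schur G') (schur_PD hPD hmin)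
    have hlow := schur_lower hPD hmin z hz
    have hm := hPD.zero_pos
    refine ⟨U *ᵥ Pi.single 0 1, mulVec_ne_zero hU ?_, ?_⟩
    · intro h0
      have := congrFun h0 0
      simp at this
    have hq : q G (U *ᵥ Pi.single 0 1) = G' 0 0 := by
      rw [← q_trans]
      unfold q
      simp [hG']
    rw [hq]
    set m := G' 0 0 with hmdef
    set s := q (schur G') z with hs
    set E := (n + 1) * n / 2 with hE
    have hE2 : (n + 1 + 1) * (n + 1) / 2 = E + (n + 1) := by
      have e1 : (n + 1 + 1) * (n + 1) = (n + 1) * n + (n + 1) * 2 := by ring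
      rw [e1, Nat.add_mul_div_right _ _ (by norm_num)]
    have hdS : m * (schur G').det = m ^ (n + 1) * G.det := by
      rw [← hdet]; exact det_schur hPD
    -- (3 m^2)^(n+1) ≤ (4 s)^(n+1)
    have hpow : (3 * m ^ 2) ^ (n + 1) ≤ (4 * s) ^ (n + 1) :=
      pow_le_pow_left₀ (by positivity) hlow _
    have hkey : m ^ (n + 1) * (3 ^ (E + (n + 1)) * m ^ (n + 1 + 1)) ≤
        m ^ (n + 1) * (4 ^ (E + (n + 1)) * G.det) := by
      calc m ^ (n + 1) * (3 ^ (E + (n + 1)) * m ^ (n + 1 + 1))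
          = m * (3 ^ E * (3 * m ^ 2) ^ (n + 1)) := by
            rw [mul_pow, ← pow_mul, pow_add]; ring
        _ ≤ m * (3 ^ E * (4 * s) ^ (n + 1)) := by
            apply mul_le_mul_of_nonneg_left _ hm.le
            apply mul_le_mul_of_nonneg_left hpow (by positivity)
        _ = m * (4 ^ (n + 1) * (3 ^ E * s ^ (n + 1))) := by rw [mul_pow]; ring
        _ ≤ m * (4 ^ (n + 1) * (4 ^ E * (schur G').det)) := by
            apply mul_le_mul_of_nonneg_left _ hm.le
            apply mul_le_mul_of_nonneg_left hzle (by positivity)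
        _ = 4 ^ (n + 1) * 4 ^ E * (m * (schur G').det) := by ring
        _ = m ^ (n + 1) * (4 ^ (E + (n + 1)) * G.det) := by rw [hdS, pow_add]; ring
    rw [hE2]
    exact le_of_mul_le_mul_left hkey (by positivity)

/-- From the minimum `m` of a reduced form to norm one vectors: rank at most five. -/
lemma norm_one_small {n : ℕ} (hn : n ≤ 4) {G : Matrix (Fin (n + 1)) (Fin (n + 1)) ℤ} (h : PD G)
    (hdet : G.det = 1) : ∃ x : Fin (n + 1) → ℤ, q G x = 1 := by
  obtain ⟨x, hx, hle⟩ := hermite n G h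
  refine ⟨x, ?_⟩
  have hpos := h.pos x hx
  by_contra hne
  have h2 : 2 ≤ q G x := by omega
  have h3 : (2 : ℤ) ^ (n + 1) ≤ (q G x) ^ (n + 1) := pow_le_pow_left₀ (by norm_num) h2 _
  rw [hdet, mul_one] at hle
  have h4 : (3 : ℤ) ^ ((n + 1) * n / 2) * 2 ^ (n + 1) ≤ 4 ^ ((n + 1) * n / 2) :=
    (mul_le_mul_of_nonneg_left h3 (by positivity)).trans hle
  interval_cases n <;> norm_num at h4

/-- rank six -/
lemma norm_one_six {G : Matrix (Fin 6) (Fin 6) ℤ} (h : PD G)
    (hdet : G.det = 1) : ∃ x : Fin 6 → ℤ, q G x = 1 := by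
  by_contra hcon
  push Not at hcon
  obtain ⟨U, hU, hmin⟩ := exists_reduced h
  set G' := Uᵀ * G * U with hG'
  have hPD : PD G' := h.trans hU
  have hdet' : G'.det = 1 := by rw [← hdet]; exact det_trans hU
  have hval : ∀ x, q G' x ≠ 1 := by
    intro x
    rw [hG', q_trans]
    exact hcon _
  have h00 : G' 0 0 = q G' (Pi.single 0 1) := by unfold q; simp
  have hm0 := hPD.zero_pos
  have hm1 : G' 0 0 ≠ 1 := by rw [h00]; exact hval _
  -- the minimum is two
  have hm : G' 0 0 = 2 := by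
    obtain ⟨x, hx, hle⟩ := hermite 5 G' hPD
    have h1 := hmin x hx
    by_contra hne
    have h3 : 3 ≤ q G' x := by omega
    have h4 : (3 : ℤ) ^ 6 ≤ (q G' x) ^ 6 := pow_le_pow_left₀ (by norm_num) h3 _
    rw [hdet', mul_one] at hle
    have h5 := (mul_le_mul_of_nonneg_left h4 (by positivity : (0 : ℤ) ≤ 3 ^ 15)).trans hle
    norm_num at h5
  set S := schur G' with hS
  have hSPD : PD S := schur_PD hPD hmin
  have hSlow : ∀ z, z ≠ 0 → 3 ≤ q S z := by
    intro z hz
    have h1 : 3 * G' 0 0 ^ 2 ≤ 4 * q S z := schur_lower hPD hmin z hz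
    rw [hm] at h1
    omega
  have hSdet : S.det = 16 := by
    have h1 : G' 0 0 * S.det = G' 0 0 ^ 5 * G'.det := det_schur hPD
    rw [hm, hdet'] at h1
    omega
  obtain ⟨V, hV, hVmin⟩ := exists_reduced hSPD
  set S' := Vᵀ * S * V with hS'
  have hS'PD : PD S' := hSPD.trans hV
  have hS'det : S'.det = 16 := by rw [← hSdet]; exact det_trans hV
  have hS'low : ∀ z, z ≠ 0 → 3 ≤ q S' z := by
    intro z hz
    rw [hS', q_trans]
    exact hSlow _ (mulVec_ne_zero hV hz)
  have hs : S' 0 0 = 3 := by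
    obtain ⟨x, hx, hle⟩ := hermite 4 S' hS'PD
    have h1 := hVmin x hx
    have h2 : S' 0 0 = q S' (Pi.single 0 1) := by unfold q; simp
    have h3 : 3 ≤ S' 0 0 := by
      rw [h2]
      refine hS'low _ ?_
      intro h0
      have := congrFun h0 0
      simp at this
    by_contra hne
    have h4 : 4 ≤ q S' x := by omega
    have h5 : (4 : ℤ) ^ 5 ≤ (q S' x) ^ 5 := pow_le_pow_left₀ (by norm_num) h4 _
    rw [hS'det] at hle
    have h6 := (mul_le_mul_of_nonneg_left h5 (by positivity : (0 : ℤ) ≤ 3 ^ 10)).trans hle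
    norm_num at h6
  -- the second Schur complement is even
  set T := schur S' with hT
  have hTPD : PD T := schur_PD hS'PD hVmin
  have hTdet : T.det = 432 := by
    have h1 : S' 0 0 * T.det = S' 0 0 ^ 4 * S'.det := det_schur hS'PD
    rw [hs, hS'det] at h1
    omega
  have hTlow : ∀ z, z ≠ 0 → 27 ≤ 4 * q T z := by
    intro z hz
    have h1 : 3 * S' 0 0 ^ 2 ≤ 4 * q T z := schur_lower hS'PD hVmin z hz
    rw [hs] at h1
    linarith
  -- `S' = 2 C - a a^T`
  set a : Fin 5 → ℤ := fun i => ∑ k, V k i * G' 0 k.succ with ha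
  set C : Matrix (Fin 5) (Fin 5) ℤ := Vᵀ * (Matrix.of fun i j => G' i.succ j.succ) * V with hC
  have hS'C : ∀ i j, S' i j = 2 * C i j - a i * a j := by
    intro i j
    have hS2 : S = (2 : ℤ) • (Matrix.of fun i j => G' (Fin.succ i) (Fin.succ j)) -
        Matrix.vecMulVec (fun k : Fin 5 => G' 0 k.succ) (fun k : Fin 5 => G' 0 k.succ) := by
      ext i j
      simp [hS, schur, hm, Matrix.vecMulVec_apply]
    rw [hS', hS2, Matrix.mul_sub, Matrix.sub_mul, Matrix.sub_apply]
    congr 1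
    · rw [hC, Matrix.mul_smul, Matrix.smul_mul, Matrix.smul_apply, smul_eq_mul]
    · simp only [ha, Matrix.mul_apply, Matrix.transpose_apply, Matrix.vecMulVec_apply]
      rw [Finset.sum_mul_sum, Finset.sum_comm]
      refine Finset.sum_congr rfl fun k _ => ?_
      rw [Finset.sum_mul]
      refine Finset.sum_congr rfl fun l _ => ?_
      ring
  set R : Matrix (Fin 4) (Fin 4) ℤ := Matrix.of fun i j =>
    2 * (C 0 0 * C i.succ j.succ - C 0 i.succ * C 0 j.succ) - C 0 0 * a i.succ * a j.succ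
      - a 0 ^ 2 * C i.succ j.succ + a 0 * a j.succ * C 0 i.succ + a 0 * a i.succ * C 0 j.succ
    with hR
  have hTR' : T = (2 : ℤ) • R := by
    ext i j
    have e1 : T i j = S' 0 0 * S' i.succ j.succ - S' 0 i.succ * S' 0 j.succ := rfl
    have e2 : ((2 : ℤ) • R) i j = 2 * (2 * (C 0 0 * C i.succ j.succ - C 0 i.succ * C 0 j.succ) -
      C 0 0 * a i.succ * a j.succ - a 0 ^ 2 * C i.succ j.succ + a 0 * a j.succ * C 0 i.succ +
      a 0 * a i.succ * C 0 j.succ) := rfl
    rw [e1, e2, hS'C, hS'C, hS'C, hS'C]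
    ring
  have hRdet : R.det = 27 := by
    rw [hTR', Matrix.det_smul] at hTdet
    norm_num at hTdet
    omega
  have hqTR : ∀ z, q T z = 2 * q R z := by
    intro z
    unfold q
    rw [hTR', Matrix.smul_mulVec, dotProduct_smul, smul_eq_mul]
  have hRPD : PD R := by
    constructor
    · have h1 := hTPD.symm
      rw [hTR', Matrix.transpose_smul] at h1
      exact smul_right_injective _ (by norm_num : (2 : ℤ) ≠ 0) h1
    · intro z hz
      have := hTPD.pos z hz
      rw [hqTR] at this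
      omega
  obtain ⟨x, hx, hle⟩ := hermite 3 R hRPD
  have h1 := hTlow x hx
  rw [hqTR] at h1
  have h4 : 4 ≤ q R x := by omega
  have h5 : (4 : ℤ) ^ 4 ≤ (q R x) ^ 4 := pow_le_pow_left₀ (by norm_num) h4 _
  rw [hRdet] at hle
  have h6 := (mul_le_mul_of_nonneg_left h5 (by positivity : (0 : ℤ) ≤ 3 ^ 6)).trans hle
  norm_num at h6

/-- **A positive definite unimodular form of rank between one and six represents one.** -/
theorem norm_one {n : ℕ} (hn : n ≤ 5) {G : Matrix (Fin (n + 1)) (Fin (n + 1)) ℤ} (h : PD G)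
    (hdet : IsUnit G.det) : ∃ x : Fin (n + 1) → ℤ, q G x = 1 := by
  have hdet1 : G.det = 1 := by
    rcases Int.isUnit_iff.1 hdet with h1 | h1
    · exact h1
    · obtain ⟨x, hx, hle⟩ := hermite n G h
      rw [h1] at hle
      have h2 := h.pos x hx
      have h3 : (0 : ℤ) < 3 ^ ((n + 1) * n / 2) * (q G x) ^ (n + 1) := by positivity
      have h4 : (0 : ℤ) < 4 ^ ((n + 1) * n / 2) := by positivity
      linarith
  rcases Nat.lt_or_ge n 5 with h5 | h5
  · exact norm_one_small (by omega) h hdet1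
  · have : n = 5 := by omega
    subst this
    exact norm_one_six h hdet1

end Pool.Agent.X3.IC
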