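import Pool.Agent.X3.IC.Herm

/-!
# Self-dual lattices in the rational standard space of dimension at most six have norm one vectors
-/

set_option autoImplicit false

open Matrix

namespace Pool.Agent.X3.IC

lemma dot_sum {n : ℕ} {ι : Type} [Fintype ι] (c : ι → ℤ) (g : ι → Fin n → ℚ) (y : Fin n → ℚ) :
    (∑ i, (c i) • g i) ⬝ᵥ y = ∑ i, (c i : ℚ) * (g i ⬝ᵥ y) := by
  rw [sum_dotProduct]
  refine Finset.sum_congr rfl fun i _ => ?_
  rw [smul_dotProduct]
  simp

theorem selfdual_norm_one {m : ℕ} (hm : m ≤ 5) (M : Submodule ℤ (Fin (m + 1) → ℚ)) (N : ℕ)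
    (hN : 0 < N)
    (hN1 : ∀ y ∈ M, ∃ t : Fin (m + 1) → ℤ, ∀ i, y i = (t i : ℚ) / N)
    (hN2 : ∀ t : Fin (m + 1) → ℤ, (fun i => (N : ℚ) * t i) ∈ M)
    (hint : ∀ y ∈ M, ∀ y' ∈ M, ∃ z : ℤ, y ⬝ᵥ y' = z)
    (hsd : ∀ z : Fin (m + 1) → ℚ, (∀ y ∈ M, ∃ t : ℤ, z ⬝ᵥ y = t) → z ∈ M) :
    ∃ y ∈ M, y ⬝ᵥ y = 1 := by
  classical
  have hNQ : (N : ℚ) ≠ 0 := by exact_mod_cast hN.ne'
  let φ : (Fin (m + 1) → ℤ) →ₗ[ℤ] (Fin (m + 1) → ℚ) :=
    { toFun := fun t i => (t i : ℚ) / N
      map_add' := by intro a b; funext i; simp [add_div]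
      map_smul' := by intro c a; funext i; simp [mul_div_assoc] }
  have hφ : ∀ t i, φ t i = (t i : ℚ) / N := fun t i => rfl
  obtain ⟨r, b⟩ := Submodule.basisOfPid (Pi.basisFun ℤ (Fin (m + 1))) (M.comap φ)
  have hr : r = m + 1 := by
    have h1 : Module.finrank ℤ (M.comap φ) = r := by
      rw [Module.finrank_eq_card_basis b, Fintype.card_fin]
    have h2 : Module.finrank ℤ (M.comap φ) ≤ m + 1 := by
      have := Submodule.finrank_le (M.comap φ)
      simpa using this
    have h3 : m + 1 ≤ Module.finrank ℤ (M.comap φ) := by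
      let ψ : (Fin (m + 1) → ℤ) →ₗ[ℤ] (M.comap φ) :=
        { toFun := fun t => ⟨((N : ℤ) ^ 2) • t, by
            rw [Submodule.mem_comap]
            have e : φ (((N : ℤ) ^ 2) • t) = fun i => (N : ℚ) * t i := by
              funext i
              rw [hφ]
              simp only [Pi.smul_apply, smul_eq_mul]
              push_cast
              field_simp
            rw [e]
            exact hN2 t⟩
          map_add' := by intro a b; ext1; simp
          map_smul' := by
            intro c a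
            apply Subtype.ext
            exact smul_comm ((N : ℤ) ^ 2) c a }
      have hinj : Function.Injective ψ := by
        intro s t hst
        have h4 := congrArg Subtype.val hst
        have h5 : ((N : ℤ) ^ 2) • s = ((N : ℤ) ^ 2) • t := h4
        exact smul_right_injective _ (by positivity : ((N : ℤ) ^ 2) ≠ 0) h5
      have := LinearMap.finrank_le_finrank_of_injective hinj
      simpa using this
    omega
  subst hr
  set g : Fin (m + 1) → Fin (m + 1) → ℚ := fun i => φ (b i) with hg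
  have hgM : ∀ i, g i ∈ M := fun i => (b i).2
  have hspan : ∀ y ∈ M, ∃ c : Fin (m + 1) → ℤ, y = ∑ i, (c i) • g i := by
    intro y hy
    obtain ⟨t, ht⟩ := hN1 y hy
    have hyt : y = φ t := by funext i; rw [ht i, hφ]
    have htM : t ∈ M.comap φ := by rw [Submodule.mem_comap, ← hyt]; exact hy
    refine ⟨fun i => b.repr ⟨t, htM⟩ i, ?_⟩
    have h1 := b.sum_repr ⟨t, htM⟩
    have h2 := congrArg Subtype.val h1
    rw [Submodule.coe_sum] at h2
    have h3 : φ t = φ (∑ i, (((b.repr ⟨t, htM⟩ i) • b i : M.comap φ) : Fin (m + 1) → ℤ)) := by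
      rw [h2]
    rw [hyt, h3, map_sum]
    refine Finset.sum_congr rfl fun i _ => ?_
    rw [Submodule.coe_smul, map_smul]
  let A : Matrix (Fin (m + 1)) (Fin (m + 1)) ℚ := Matrix.of g
  -- the Gram matrix
  choose Gf hGf using fun i j => hint (g i) (hgM i) (g j) (hgM j)
  let G : Matrix (Fin (m + 1)) (Fin (m + 1)) ℤ := Matrix.of Gf
  have hGA : G.map (Int.cast : ℤ → ℚ) = A * Aᵀ := by
    ext i j
    simp only [Matrix.map_apply, G, Matrix.of_apply, A, Matrix.mul_apply, Matrix.transpose_apply]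
    rw [← hGf i j]
    rfl
  -- `A` is invertible
  have hdetA : IsUnit A.det := by
    rw [isUnit_iff_ne_zero]
    have h1 : ∀ j : Fin (m + 1), ∃ c : Fin (m + 1) → ℤ,
        (fun i => (N : ℚ) * ((Pi.single j 1 : Fin (m + 1) → ℤ) i)) = ∑ i, (c i) • g i :=
      fun j => hspan _ (hN2 _)
    choose T hT using h1
    have h2 : (Matrix.of fun i j => (T i j : ℚ)) * A = (N : ℚ) • (1 : Matrix _ _ ℚ) := by
      ext i j
      have h3 := congrFun (hT i) j
      rw [Finset.sum_apply] at h3
      simp only [Matrix.mul_apply, Matrix.of_apply, A, Matrix.smul_apply, smul_eq_mul]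
      simp only [Pi.smul_apply, zsmul_eq_mul] at h3
      rw [← h3]
      by_cases hij : i = j
      · subst hij; simp
      · rw [Matrix.one_apply_ne hij, Pi.single_eq_of_ne (Ne.symm hij)]; simp
    intro h0
    have h4 := congrArg Matrix.det h2
    rw [Matrix.det_mul, h0, mul_zero, Matrix.det_smul, Matrix.det_one, mul_one] at h4
    exact pow_ne_zero _ hNQ h4.symm
  -- dual basis
  set B : Matrix (Fin (m + 1)) (Fin (m + 1)) ℚ := (A⁻¹)ᵀ with hB
  have hAB : A * Bᵀ = 1 := by
    rw [hB, Matrix.transpose_transpose, Matrix.mul_nonsing_inv _ hdetA]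
  have hdual : ∀ i j, g i ⬝ᵥ B j = if i = j then 1 else 0 := by
    intro i j
    have h1 := congrFun (congrFun hAB i) j
    rw [Matrix.one_apply] at h1
    rw [← h1]
    rfl
  have hBM : ∀ j, B j ∈ M := by
    intro j
    refine hsd _ ?_
    intro y hy
    obtain ⟨c, rfl⟩ := hspan y hy
    refine ⟨c j, ?_⟩
    rw [dotProduct_comm, dot_sum]
    simp only [hdual]
    simp
  choose H hH using fun j => hspan (B j) (hBM j)
  have hBH : B = (Matrix.of fun i j => (H i j : ℚ)) * A := by
    ext i j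
    have h1 := congrFun (hH i) j
    rw [h1, Finset.sum_apply]
    simp only [Matrix.mul_apply, Matrix.of_apply, A, Pi.smul_apply, zsmul_eq_mul]
  have hGH : G * (Matrix.of H)ᵀ = 1 := by
    have h1 : (G * (Matrix.of H)ᵀ).map (Int.cast : ℤ → ℚ) = 1 := by
      rw [Matrix.map_mul_intCast, hGA]
      have h2 : ((Matrix.of H)ᵀ).map (Int.cast : ℤ → ℚ) = (Matrix.of fun i j => (H i j : ℚ))ᵀ := by
        ext i j; rfl
      rw [h2, Matrix.mul_assoc, ← Matrix.transpose_mul, ← hBH, hAB]
    have hinj : Function.Injective (Int.cast : ℤ → ℚ) := Int.cast_injective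
    have h3 : (G * (Matrix.of H)ᵀ).map (Int.cast : ℤ → ℚ) =
        (1 : Matrix (Fin (m + 1)) (Fin (m + 1)) ℤ).map (Int.cast : ℤ → ℚ) := by
      rw [h1]
      ext i j
      by_cases hij : i = j
      · subst hij; simp
      · simp [Matrix.one_apply_ne hij]
    exact Matrix.map_injective hinj h3
  have hdetG : IsUnit G.det := by
    have h1 := congrArg Matrix.det hGH
    rw [Matrix.det_mul, Matrix.det_one] at h1
    exact IsUnit.of_mul_eq_one _ h1
  have hqG : ∀ x : Fin (m + 1) → ℤ, ((q G x : ℤ) : ℚ) =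
      (∑ i, (x i) • g i) ⬝ᵥ (∑ i, (x i) • g i) := by
    intro x
    rw [dot_sum, q_sum]
    push_cast
    refine Finset.sum_congr rfl fun i _ => ?_
    rw [dotProduct_comm, dot_sum, Finset.mul_sum]
    refine Finset.sum_congr rfl fun j _ => ?_
    have : (G i j : ℚ) = g i ⬝ᵥ g j := (hGf i j).symm
    rw [this, dotProduct_comm (g j)]
    ring
  have hPD : PD G := by
    constructor
    · ext i j
      have h1 : ((G j i : ℤ) : ℚ) = (G i j : ℤ) := by
        have e1 : (G i j : ℚ) = g i ⬝ᵥ g j := (hGf i j).symm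
        have e2 : (G j i : ℚ) = g j ⬝ᵥ g i := (hGf j i).symm
        rw [e1, e2, dotProduct_comm]
      rw [Matrix.transpose_apply]
      exact_mod_cast h1
    · intro x hx
      have h1 : (0 : ℚ) < q G x := by
        rw [hqG]
        have hnn : 0 ≤ (∑ i, (x i) • g i) ⬝ᵥ (∑ i, (x i) • g i) :=
          Finset.sum_nonneg fun i _ => mul_self_nonneg _
        refine lt_of_le_of_ne hnn (Ne.symm ?_)
        intro h0
        have h2 : (∑ i, (x i) • g i) = 0 := by
          funext j
          have h3 := (Finset.sum_eq_zero_iff_of_nonneg (fun i _ => mul_self_nonneg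
            ((∑ i, (x i) • g i : Fin (m + 1) → ℚ) i))).1 h0 j (Finset.mem_univ j)
          exact mul_self_eq_zero.1 h3
        apply hx
        funext j
        have h4 : (∑ i, (x i) • g i) ⬝ᵥ B j = 0 := by rw [h2, zero_dotProduct]
        rw [dot_sum] at h4
        simp only [hdual] at h4
        simpa using h4
      exact_mod_cast h1
  obtain ⟨x, hx⟩ := norm_one hm hPD hdetG
  refine ⟨∑ i, (x i) • g i, Submodule.sum_mem _ fun i _ => Submodule.smul_mem _ _ (hgM i), ?_⟩
  rw [← hqG, hx]
  norm_num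

end Pool.Agent.X3.IC
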