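import Pool.Agent.X3.IC.SelfDual

/-!
# Extending an integral orthogonal frame by one vector, given a rational completion
-/

set_option autoImplicit false

open Matrix

namespace Pool.Agent.X3.IC

/-- an integer vector as a rational vector -/
def qv {ι : Type} (a : ι → ℤ) : ι → ℚ := fun l => (a l : ℚ)

section

variable {ι : Type} [Fintype ι] [DecidableEq ι] {n : ℕ}

/-- The neighbour lattice `W^T Z^ι + {c : W c integral}`. -/
def lat (W : Fin n → ι → ℚ) : Submodule ℤ (Fin n → ℚ) where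
  carrier := {y | ∃ (a : ι → ℤ) (c : Fin n → ℤ),
    (∃ x : ι → ℤ, ∀ l, ∑ j, (c j : ℚ) * W j l = x l) ∧ ∀ j, y j = W j ⬝ᵥ qv a + c j}
  add_mem' := by
    rintro y y' ⟨a, c, ⟨x, hx⟩, h⟩ ⟨a', c', ⟨x', hx'⟩, h'⟩
    refine ⟨a + a', c + c', ⟨x + x', fun l => ?_⟩, fun j => ?_⟩
    · simp only [Pi.add_apply, Int.cast_add, add_mul, Finset.sum_add_distrib, hx, hx']
    · have : qv (a + a') = qv a + qv a' := by funext l; simp [qv]
      rw [Pi.add_apply, h, h', this, dotProduct_add, Pi.add_apply]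
      push_cast
      ring
  zero_mem' := by
    refine ⟨0, 0, ⟨0, fun l => by simp⟩, fun j => ?_⟩
    have : qv (0 : ι → ℤ) = 0 := by funext l; simp [qv]
    rw [this]
    simp
  smul_mem' := by
    rintro t y ⟨a, c, ⟨x, hx⟩, h⟩
    refine ⟨t • a, t • c, ⟨t • x, fun l => ?_⟩, fun j => ?_⟩
    · simp only [Pi.smul_apply, smul_eq_mul, Int.cast_mul, mul_assoc]
      rw [← Finset.mul_sum, hx]
    · have : qv (t • a) = (t : ℚ) • qv a := by funext l; simp [qv]
      rw [Pi.smul_apply, h, this, dotProduct_smul, Pi.smul_apply]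
      simp only [zsmul_eq_mul, smul_eq_mul]
      push_cast
      ring

omit [DecidableEq ι] in
lemma mem_lat {W : Fin n → ι → ℚ} {y : Fin n → ℚ} : y ∈ lat W ↔ ∃ (a : ι → ℤ) (c : Fin n → ℤ),
    (∃ x : ι → ℤ, ∀ l, ∑ j, (c j : ℚ) * W j l = x l) ∧ ∀ j, y j = W j ⬝ᵥ qv a + c j := Iff.rfl

/-- common denominators -/
lemma exists_denom {κ : Type} [Fintype κ] (f : κ → ℚ) : ∃ N : ℕ, 0 < N ∧
    ∀ i, ∃ t : ℤ, (N : ℚ) * f i = t := by
  classical
  refine ⟨∏ i, (f i).den, Finset.prod_pos fun i _ => (f i).den_pos, ?_⟩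
  intro i
  rw [← Finset.mul_prod_erase Finset.univ (fun i => (f i).den) (Finset.mem_univ i)]
  refine ⟨(∏ x ∈ Finset.univ.erase i, (f x).den : ℕ) * (f i).num, ?_⟩
  have h := Rat.mul_den_eq_num (f i)
  push_cast
  rw [← h]
  ring

/-- double annihilator: if `z` pairs integrally with all integral `c` with `W c` integral then `z`
is in `W^T Z^ι + Z^n` -/
lemma double_ann (W : Fin n → ι → ℚ) (z : Fin n → ℚ)
    (hz : ∀ c : Fin n → ℤ, (∃ x : ι → ℤ, ∀ l, ∑ j, (c j : ℚ) * W j l = x l) →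
      ∃ t : ℤ, ∑ j, z j * c j = t) :
    ∃ (a : ι → ℤ) (c : Fin n → ℤ), ∀ j, z j = W j ⬝ᵥ qv a + c j := by
  classical
  obtain ⟨N1, hN1, h1⟩ := exists_denom (fun p : Fin n × ι => W p.1 p.2)
  obtain ⟨N2, hN2, h2⟩ := exists_denom z
  set D : ℕ := N1 * N2 with hD
  have hDpos : 0 < D := Nat.mul_pos hN1 hN2
  have hDQ : (D : ℚ) ≠ 0 := by exact_mod_cast hDpos.ne'
  have hw : ∀ j l, ∃ t : ℤ, (D : ℚ) * W j l = t := by
    intro j l
    obtain ⟨t, ht⟩ := h1 (j, l)
    refine ⟨N2 * t, ?_⟩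
    push_cast
    rw [hD, ← ht]
    push_cast
    ring
  have hu : ∀ j, ∃ t : ℤ, (D : ℚ) * z j = t := by
    intro j
    obtain ⟨t, ht⟩ := h2 j
    refine ⟨N1 * t, ?_⟩
    push_cast
    rw [hD, ← ht]
    push_cast
    ring
  choose w hw using hw
  choose u hu using hu
  let H : AddSubgroup (Fin n → ℤ) :=
    { carrier := {t | ∃ (a : ι → ℤ) (c : Fin n → ℤ), ∀ j, t j = ∑ l, w j l * a l + D * c j}
      add_mem' := by
        rintro t t' ⟨a, c, h⟩ ⟨a', c', h'⟩
        refine ⟨a + a', c + c', fun j => ?_⟩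
        simp only [Pi.add_apply, h, h', mul_add, Finset.sum_add_distrib]
        ring
      zero_mem' := ⟨0, 0, fun j => by simp⟩
      neg_mem' := by
        rintro t ⟨a, c, h⟩
        refine ⟨-a, -c, fun j => ?_⟩
        simp only [Pi.neg_apply, h, mul_neg, Finset.sum_neg_distrib]
        ring }
  have hH : ∀ t, t ∈ H ↔ ∃ (a : ι → ℤ) (c : Fin n → ℤ),
      ∀ j, t j = ∑ l, w j l * a l + D * c j := fun t => Iff.rfl
  by_cases huH : u ∈ H
  · obtain ⟨a, c, h⟩ := (hH u).1 huH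
    refine ⟨a, c, fun j => ?_⟩
    have e1 : (D : ℚ) * z j = (D : ℚ) * (W j ⬝ᵥ qv a + c j) := by
      rw [hu, h j]
      push_cast
      rw [mul_add, dotProduct, Finset.mul_sum]
      congr 1
      refine Finset.sum_congr rfl fun l _ => ?_
      rw [← hw, qv]
      ring
    exact mul_left_cancel₀ hDQ e1
  · exfalso
    have hne : (QuotientAddGroup.mk' H u) ≠ 0 := by
      intro h0
      exact huH ((QuotientAddGroup.eq_zero_iff u).1 h0)
    obtain ⟨c0, hc0⟩ := CharacterModule.exists_character_apply_ne_zero_of_ne_zero hne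
    let χ : (Fin n → ℤ) →+ AddCircle (1 : ℚ) := (c0 : _ →+ AddCircle (1 : ℚ)).comp
      (QuotientAddGroup.mk' H)
    have hχH : ∀ t ∈ H, χ t = 0 := by
      intro t ht
      have : QuotientAddGroup.mk' H t = 0 := (QuotientAddGroup.eq_zero_iff t).2 ht
      change c0 (QuotientAddGroup.mk' H t) = 0
      rw [this]
      exact map_zero c0
    have hχu : χ u ≠ 0 := hc0
    choose r hr using fun j : Fin n => QuotientAddGroup.mk_surjective (χ (Pi.single j 1))
    have hr' : ∀ j, χ (Pi.single j 1) = ((r j : ℚ) : AddCircle (1 : ℚ)) := fun j => (hr j).symm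
    have hχ : ∀ t : Fin n → ℤ, χ t = ((∑ j, (t j : ℚ) * r j : ℚ) : AddCircle (1 : ℚ)) := by
      intro t
      have e1 : t = ∑ j, t j • (Pi.single j 1 : Fin n → ℤ) := by
        funext i
        rw [Finset.sum_apply]
        simp [Pi.single_apply]
      conv_lhs => rw [e1]
      rw [map_sum]
      have e2 : ((∑ j, (t j : ℚ) * r j : ℚ) : AddCircle (1 : ℚ)) =
          ∑ j, (((t j : ℚ) * r j : ℚ) : AddCircle (1 : ℚ)) :=
        map_sum (QuotientAddGroup.mk' (AddSubgroup.zmultiples (1 : ℚ))) _ _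
      rw [e2]
      refine Finset.sum_congr rfl fun j _ => ?_
      rw [map_zsmul, hr' j, ← AddCircle.coe_zsmul]
      rw [zsmul_eq_mul]
    have hDr : ∀ j, ∃ c : ℤ, (D : ℚ) * r j = c := by
      intro j
      have hmem : (D : ℤ) • (Pi.single j 1 : Fin n → ℤ) ∈ H := by
        refine (hH _).2 ⟨0, Pi.single j 1, fun i => ?_⟩
        simp
      have h3 := hχH _ hmem
      rw [map_zsmul, hr' j, ← AddCircle.coe_zsmul, AddCircle.coe_eq_zero_iff] at h3
      obtain ⟨c, hc⟩ := h3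
      refine ⟨c, ?_⟩
      rw [zsmul_eq_mul, mul_one, zsmul_eq_mul] at hc
      rw [hc]
      norm_cast
    choose c hc using hDr
    have hrc : ∀ j, r j = (c j : ℚ) / D := by
      intro j
      rw [← hc j]
      field_simp
    have hcint : ∃ x : ι → ℤ, ∀ l, ∑ j, (c j : ℚ) * W j l = x l := by
      have h4 : ∀ l, ∃ t : ℤ, ∑ j, (c j : ℚ) * W j l = t := by
        intro l
        have hmem : (fun j => w j l) ∈ H := by
          refine (hH _).2 ⟨Pi.single l 1, 0, fun i => ?_⟩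
          simp [Pi.single_apply]
        have h3 := hχH _ hmem
        rw [hχ, AddCircle.coe_eq_zero_iff] at h3
        obtain ⟨t, ht⟩ := h3
        refine ⟨t, ?_⟩
        rw [zsmul_eq_mul, mul_one] at ht
        rw [ht]
        refine Finset.sum_congr rfl fun j _ => ?_
        rw [hrc j, ← hw]
        field_simp
      choose x hx using h4
      exact ⟨x, hx⟩
    obtain ⟨t, ht⟩ := hz c hcint
    apply hχu
    rw [hχ, AddCircle.coe_eq_zero_iff]
    refine ⟨t, ?_⟩
    rw [zsmul_eq_mul, mul_one, ← ht]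
    refine Finset.sum_congr rfl fun j _ => ?_
    rw [hrc j, ← hu]
    field_simp

/-- **Extension by one vector.** -/
theorem step {m k : ℕ} (hm : m ≤ 5) (lam : ℤ) (V : Fin k → ι → ℤ)
    (W : Fin (m + 1) → ι → ℚ)
    (hWW : ∀ i j, W i ⬝ᵥ W j = if i = j then (lam : ℚ) else 0)
    (hVW : ∀ i j, qv (V i) ⬝ᵥ W j = 0)
    (hcomp : ∀ (a : ι → ℤ) (l : ι), ∑ j, (W j ⬝ᵥ qv a) * W j l =
      lam * a l - ∑ i, ((V i ⬝ᵥ a : ℤ) : ℚ) * V i l) :
    ∃ x : ι → ℤ, x ⬝ᵥ x = lam ∧ ∀ i, V i ⬝ᵥ x = 0 := by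
  classical
  -- elements of the lattice give integral vectors
  have hWint : ∀ y ∈ lat W, ∃ x : ι → ℤ, ∀ l, ∑ j, y j * W j l = x l := by
    rintro y ⟨a, c, ⟨x, hx⟩, h⟩
    refine ⟨fun l => lam * a l - ∑ i, (V i ⬝ᵥ a) * V i l + x l, fun l => ?_⟩
    have e1 : ∑ j, y j * W j l = ∑ j, (W j ⬝ᵥ qv a) * W j l + ∑ j, (c j : ℚ) * W j l := by
      rw [← Finset.sum_add_distrib]
      refine Finset.sum_congr rfl fun j _ => ?_
      rw [h]; ring
    rw [e1, hcomp, hx]
    push_cast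
    ring
  have hpair : ∀ (y : Fin (m + 1) → ℚ) (a : ι → ℤ),
      ∑ j, y j * (W j ⬝ᵥ qv a) = ∑ l, (∑ j, y j * W j l) * a l := by
    intro y a
    simp only [dotProduct, qv, Finset.mul_sum, Finset.sum_mul]
    rw [Finset.sum_comm]
    refine Finset.sum_congr rfl fun l _ => Finset.sum_congr rfl fun j _ => by ring
  have hint : ∀ y ∈ lat W, ∀ y' ∈ lat W, ∃ z : ℤ, y ⬝ᵥ y' = z := by
    intro y hy y' hy'
    obtain ⟨x', hx'⟩ := hWint y' hy'
    obtain ⟨a, c, ⟨x, hx⟩, h⟩ := hy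
    obtain ⟨a', c', -, h'⟩ := hy'
    refine ⟨∑ l, x' l * a l + (∑ l, x l * a' l + ∑ j, c j * c' j), ?_⟩
    have e1 : y ⬝ᵥ y' = ∑ j, y' j * (W j ⬝ᵥ qv a) + ∑ j, (c j : ℚ) * y' j := by
      rw [dotProduct, ← Finset.sum_add_distrib]
      refine Finset.sum_congr rfl fun j _ => ?_
      rw [h]; ring
    have e2 : ∑ j, (c j : ℚ) * y' j = ∑ j, (c j : ℚ) * (W j ⬝ᵥ qv a') + ∑ j, (c j : ℚ) * c' j := by
      rw [← Finset.sum_add_distrib]
      refine Finset.sum_congr rfl fun j _ => ?_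
      rw [h']; ring
    rw [e1, e2, hpair, hpair]
    simp only [hx, hx']
    push_cast
    rfl
  obtain ⟨N, hN, hNW⟩ := exists_denom (fun p : Fin (m + 1) × ι => W p.1 p.2)
  have hNQ : (N : ℚ) ≠ 0 := by exact_mod_cast hN.ne'
  have hNW' : ∀ j l, ∃ t : ℤ, (N : ℚ) * W j l = t := fun j l => hNW (j, l)
  choose w hw using hNW'
  have hN1 : ∀ y ∈ lat W, ∃ t : Fin (m + 1) → ℤ, ∀ i, y i = (t i : ℚ) / N := by
    rintro y ⟨a, c, -, h⟩
    refine ⟨fun j => ∑ l, w j l * a l + N * c j, fun j => ?_⟩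
    rw [h, eq_div_iff hNQ]
    push_cast
    rw [add_mul, dotProduct, Finset.sum_mul]
    congr 1
    · refine Finset.sum_congr rfl fun l _ => ?_
      rw [← hw, qv]; ring
    · ring
  have hN2 : ∀ t : Fin (m + 1) → ℤ, (fun i => (N : ℚ) * t i) ∈ lat W := by
    intro t
    refine ⟨0, fun i => N * t i, ⟨fun l => ∑ j, t j * w j l, fun l => ?_⟩, fun j => ?_⟩
    · push_cast
      refine Finset.sum_congr rfl fun j _ => ?_
      rw [← hw]; ring
    · have : qv (0 : ι → ℤ) = 0 := by funext l; simp [qv]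
      rw [this]
      simp
  have hsd : ∀ z : Fin (m + 1) → ℚ, (∀ y ∈ lat W, ∃ t : ℤ, z ⬝ᵥ y = t) → z ∈ lat W := by
    intro z hz
    have hWz : ∃ x : ι → ℤ, ∀ l, ∑ j, z j * W j l = x l := by
      have h1 : ∀ l, ∃ t : ℤ, ∑ j, z j * W j l = t := by
        intro l
        refine hz (fun j => W j l) ⟨Pi.single l 1, 0, ⟨0, fun l => by simp⟩, fun j => ?_⟩
        simp only [Pi.zero_apply, Int.cast_zero, add_zero, dotProduct, qv]
        rw [Finset.sum_eq_single l]
        · simp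
        · intro b _ hb
          rw [Pi.single_eq_of_ne hb]; simp
        · simp
      choose x hx using h1
      exact ⟨x, hx⟩
    obtain ⟨a, c, hac⟩ := double_ann W z (by
      intro c hc
      refine hz (fun j => (c j : ℚ)) ⟨0, c, hc, fun j => ?_⟩
      have : qv (0 : ι → ℤ) = 0 := by funext l; simp [qv]
      rw [this]
      simp)
    obtain ⟨x, hx⟩ := hWz
    refine ⟨a, c, ⟨fun l => x l - (lam * a l - ∑ i, (V i ⬝ᵥ a) * V i l), fun l => ?_⟩, hac⟩
    have e1 : ∑ j, (c j : ℚ) * W j l = ∑ j, z j * W j l - ∑ j, (W j ⬝ᵥ qv a) * W j l := by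
      rw [← Finset.sum_sub_distrib]
      refine Finset.sum_congr rfl fun j _ => ?_
      rw [hac]; ring
    rw [e1, hx, hcomp]
    push_cast
    ring
  obtain ⟨y, hy, hyy⟩ := selfdual_norm_one hm (lat W) N hN hN1 hN2 hint hsd
  obtain ⟨x, hx⟩ := hWint y hy
  have hxq : qv x = fun l => ∑ j, y j * W j l := by funext l; exact (hx l).symm
  have hdotW : ∀ v : ι → ℚ, v ⬝ᵥ qv x = ∑ j, y j * (v ⬝ᵥ W j) := by
    intro v
    rw [hxq]
    simp only [dotProduct, Finset.mul_sum]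
    rw [Finset.sum_comm]
    refine Finset.sum_congr rfl fun l _ => Finset.sum_congr rfl fun j _ => by ring
  have hcast : ∀ a b : ι → ℤ, ((a ⬝ᵥ b : ℤ) : ℚ) = qv a ⬝ᵥ qv b := by
    intro a b
    simp [dotProduct, qv]
  refine ⟨x, ?_, ?_⟩
  · have e1 : ((x ⬝ᵥ x : ℤ) : ℚ) = lam := by
      rw [hcast, hdotW]
      have e2 : ∀ j, qv x ⬝ᵥ W j = y j * lam := by
        intro j
        rw [dotProduct_comm, hdotW]
        rw [Finset.sum_eq_single j]
        · rw [hWW, if_pos rfl]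
        · intro i _ hi
          rw [hWW, if_neg (Ne.symm hi), mul_zero]
        · simp
      simp only [e2]
      have e3 : ∑ j, y j * (y j * (lam : ℚ)) = (y ⬝ᵥ y) * lam := by
        rw [dotProduct, Finset.sum_mul]
        refine Finset.sum_congr rfl fun j _ => by ring
      rw [e3, hyy, one_mul]
    exact_mod_cast e1
  · intro i
    have e1 : ((V i ⬝ᵥ x : ℤ) : ℚ) = 0 := by
      rw [hcast, hdotW]
      refine Finset.sum_eq_zero fun j _ => ?_
      rw [hVW, mul_zero]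
    exact_mod_cast e1

end

end Pool.Agent.X3.IC
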